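import Pool.Agent.J4.H7.RF.Two

/-!
# Amalgams of virtually RFRS groups over cyclic groups are virtually RFRS

`IsRFRS` is the definition of the problem: `G` is finitely generated and has finite-index normal
subgroups `G = U 0 ≥ U 1 ≥ ...` with trivial intersection such that `U (i + 1)` contains every
element of `U i` with a positive power in the commutator subgroup of `U i`, that is, the kernel of
`U i → H₁(U i) ⊗ ℚ`.

**Theorem.** Let `G₁` and `G₂` be finitely generated virtually RFRS groups and `C` a cyclic group
embedded in both. Then `G₁ *_C G₂` is virtually RFRS.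

In particular the answer to the question of the problem for the class of the virtually RFRS
free-by-cyclic groups is positive: if `G₁`, `G₂` are finitely generated, free-by-cyclic and virtually
RFRS, and `G₁ *_C G₂` is free-by-cyclic, then it is virtually RFRS. There is no hypothesis on the image
of `C` in the homology of `G₁` and `G₂`: the result of the starting library needs that it is infinite
for one of them, which fails for example for the amalgams of two free groups over the group generated
by a product of commutators in both.

Proof. Let `c` generate `C` (the case of a finite `C` is similar and easier). We choose normal subgroups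
of finite index `N_i` of `G_i` (`i = 1, 2`) whose canonical towers `N_i(j)` have trivial intersection,
with `N_1 ∩ C = N_2 ∩ C = ⟨c₀⟩`, and homomorphisms `f_i : N_i → ℤ` with `f_i(c₀) = 1`. Here
`N_i(j + 1)` consists of the elements of `N_i(j)` on which all homomorphisms `N_i(j) → ℤ` are divisible
by `(j + 2)!`. Both properties are inherited by the `N_i(j)`, with `c₀` replaced by a power.

(1) Let `K` be a normal subgroup of finite index of `G = G₁ *_C G₂` with `K ∩ G_i = N_i(j)`, and
`Q_i = G_i / N_i(j)`. There is a covering of the finite graph `K \ T`, `T` the Bass-Serre tree, with the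
states `(p, q) ∈ Q_1 × Q_2` over each vertex, such that the homomorphisms `h : N_1(j) → ℤ`, transported
to the vertex `v` of the first type in the state `(p, q)` by `p` and multiplied by
`f_2(q⁻¹ c₀ q)`, fit together with the homomorphisms `f_2`, transported to the vertices of the
second type in the state `(p, q)` by `q` and multiplied by `h(p⁻¹ c₀ p)`. Hence all
homomorphisms `N_i(j) → ℤ` extend to the subgroup `L` of finite index of the elements of `K` with trivial
monodromy, `i = 1, 2`.

(2) The monodromy of the covering consists of left multiplications by elements of `Q_1 × Q_2`. So it can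
be chosen such that the monodromy at level `j + 1` lifts the monodromy at level `j`; then it
has values in the product of the abelian groups `N_i(j) / N_i(j + 1)` on the subgroup
`K' = {x ∈ L | all homomorphisms L → ℤ are divisible by (j + 2)! at x}`, for which
`K' ∩ G_i = N_i(j + 1)` by (1).

(3) The homomorphisms from `K'` to `ℤ / m` which vanish on the elliptic elements are reductions of
homomorphisms to `ℤ`: they are given by cocycles on a finite graph. Hence the kernel `L'` of the
monodromy at level `j + 1` contains the next term but one of the canonical tower of `L`.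

So the canonical tower of the first group `L` separates the elements of `G_1` and `G_2`, and these
elements from `C`. By the starting library this implies that it has trivial intersection.
-/

set_option autoImplicit false

universe u

namespace Pool.Agent.Results.MP_3982fc_al.AllCyclicAmalgams

open Pool.Agent.R632.VRC

/-- `G` is RFRS: it is finitely generated and has a chain of finite-index normal subgroups
`G = U 0 ≥ U 1 ≥ ...` with trivial intersection such that `U (i + 1)` contains the kernel of the
homomorphism `U i → H₁(U i) ⊗ ℚ`, i.e. the elements of `U i` some positive power of which is in the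
commutator subgroup of `U i`. -/
def IsRFRS (G : Type u) [Group G] : Prop :=
  Group.FG G ∧ ∃ U : ℕ → Subgroup G, U 0 = ⊤ ∧ (∀ i, (U i).Normal) ∧ (∀ i, (U i).FiniteIndex) ∧
    (∀ i, U (i + 1) ≤ U i) ∧
    (∀ i, ∀ x ∈ U i, ∀ n : ℕ, 0 < n → x ^ n ∈ ⁅U i, U i⁆ → x ∈ U (i + 1)) ∧ ⨅ i, U i = ⊥

/-- Some subgroup of finite index is RFRS. -/
def IsVirtuallyRFRS (G : Type u) [Group G] : Prop :=
  ∃ K : Subgroup G, K.FiniteIndex ∧ IsRFRS K

/-- The amalgamated free product of `G₁` and `G₂` along `a` and `b`. -/
abbrev Amalgam {G₁ G₂ H : Type*} [Group G₁] [Group G₂] [Group H] (a : H →* G₁) (b : H →* G₂) :=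
  Monoid.Coprod G₁ G₂ ⧸ Subgroup.normalClosure (Set.range fun h : H =>
    (Monoid.Coprod.inl (a h) : Monoid.Coprod G₁ G₂) * (Monoid.Coprod.inr (b h))⁻¹)

/-- **The amalgam of two finitely generated virtually RFRS groups over a cyclic group is virtually
RFRS.** -/
theorem result (G₁ G₂ C : Type u) [Group G₁] [Group G₂] [Group C] (hfg₁ : Group.FG G₁)
    (hfg₂ : Group.FG G₂) (hC : IsCyclic C) (h₁ : IsVirtuallyRFRS G₁) (h₂ : IsVirtuallyRFRS G₂)
    (a : C →* G₁) (b : C →* G₂) (ha : Function.Injective a) (hb : Function.Injective b) :
    IsVirtuallyRFRS (Amalgam a b) := by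
  let N : Subgroup (Monoid.Coprod G₁ G₂) := Subgroup.normalClosure (Set.range fun h =>
    (Monoid.Coprod.inl (a h) : Monoid.Coprod G₁ G₂) * (Monoid.Coprod.inr (b h))⁻¹)
  have hΓ := coprod_amalg a b (QuotientGroup.mk' N) (QuotientGroup.mk'_surjective N) (by
    rw [QuotientGroup.ker_mk'])
  have hfgΓ : Group.FG (Monoid.Coprod G₁ G₂ ⧸ N) := by
    have h3 : Group.FG (Monoid.Coprod G₁ G₂) := by
      have h4 : (Monoid.Coprod.inl : G₁ →* Monoid.Coprod G₁ G₂).range.FG :=
        (Group.fg_iff_subgroup_fg _).mp (Group.fg_range _)
      have h5 : (Monoid.Coprod.inr : G₂ →* Monoid.Coprod G₁ G₂).range.FG :=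
        (Group.fg_iff_subgroup_fg _).mp (Group.fg_range _)
      rw [Group.fg_def, ← Monoid.Coprod.range_inl_sup_range_inr]
      exact h4.sup h5
    infer_instance
  obtain ⟨K, hK, hKr⟩ := h₁
  obtain ⟨L, hL, hLr⟩ := h₂
  obtain ⟨c, hc⟩ := hC.exists_generator
  obtain ⟨M, hM, hMT⟩ := Pool.Agent.J4.H7.RF.two hfg₁ hfg₂ a b ha hb hΓ hfgΓ c (fun h => by
    obtain ⟨n, hn⟩ := hc h
    exact ⟨n, hn.symm⟩) hK hKr hL hLr
  exact ⟨M, hM, K4H11.RFRS.isRFRS_of_TT hM hMT⟩

end Pool.Agent.Results.MP_3982fc_al.AllCyclicAmalgams
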